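import Pool.Agent.Helper52.AT.Defs

/-!
# AT-KRULL (helper97)
-/

set_option autoImplicit false

namespace Pool.Agent.Helper52.AT

open Filter Topology IsLocalRing MvPolynomial

namespace Kr

variable {O : Type} [CommRing O] [IsLocalRing O] [IsNoetherianRing O] [Algebra ℂ O]

/-- the ideal `(t) + m ^ k` -/
def K (t : O) (k : ℕ) : Ideal O := Ideal.span {t} ⊔ maximalIdeal O ^ k

lemma T_pow (T : O →ₐ[ℂ] O) (hT : ∀ a ∈ maximalIdeal O, T a ∈ maximalIdeal O) (k : ℕ) {a : O}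
    (ha : a ∈ maximalIdeal O ^ k) : T a ∈ maximalIdeal O ^ k := by
  have h1 : T a ∈ Ideal.map (T : O →+* O) (maximalIdeal O ^ k) :=
    Ideal.mem_map_of_mem (T : O →+* O) ha
  rw [Ideal.map_pow] at h1
  have h2 : Ideal.map (T : O →+* O) (maximalIdeal O) ≤ maximalIdeal O := by
    rw [Ideal.map_le_iff_le_comap]
    intro x hx
    exact hT x hx
  exact Ideal.pow_right_mono h2 k h1

lemma T_span (T : O →ₐ[ℂ] O) {t : O} (htT : T t ∈ Ideal.span {t}) {a : O}
    (ha : a ∈ Ideal.span {t}) : T a ∈ Ideal.span {t} := by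
  obtain ⟨c, rfl⟩ := Ideal.mem_span_singleton'.1 ha
  rw [map_mul]
  exact Ideal.mul_mem_left _ _ htT

lemma T_K (T : O →ₐ[ℂ] O) (hT : ∀ a ∈ maximalIdeal O, T a ∈ maximalIdeal O) {t : O}
    (htT : T t ∈ Ideal.span {t}) (k : ℕ) {a : O} (ha : a ∈ K t k) : T a ∈ K t k := by
  obtain ⟨x, hx, y, hy, rfl⟩ := Submodule.mem_sup.1 ha
  rw [map_add]
  exact Submodule.add_mem_sup (T_span T htT hx) (T_pow T hT k hy)

lemma T_K_pow (T : O →ₐ[ℂ] O) (hT : ∀ a ∈ maximalIdeal O, T a ∈ maximalIdeal O) {t : O}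
    (htT : T t ∈ Ideal.span {t}) (k i : ℕ) {a : O} (ha : a ∈ K t k) : (T ^ i) a ∈ K t k := by
  induction i with
  | zero => simpa using ha
  | succ i ih =>
    rw [pow_succ', AlgHom.mul_apply]
    exact T_K T hT htT k ih

lemma step_a (T : O →ₐ[ℂ] O) (hT : ∀ a ∈ maximalIdeal O, T a ∈ maximalIdeal O)
    (hres : ∀ a, ∃ c : ℂ, a - algebraMap ℂ O c ∈ maximalIdeal O) (t : O)
    (hN : maximalIdeal O ≤ Ideal.span (T '' (maximalIdeal O : Set O)) ⊔ Ideal.span {t}) (k : ℕ) :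
    ∀ x ∈ maximalIdeal O, ∃ y ∈ maximalIdeal O, x - T y ∈ K t k := by
  induction k with
  | zero =>
    intro x _
    refine ⟨0, Ideal.zero_mem _, ?_⟩
    have : K t 0 = ⊤ := by unfold K; simp
    rw [this]
    exact Submodule.mem_top
  | succ k ih =>
    intro x hx
    obtain ⟨u, hu, v, hv, rfl⟩ := Submodule.mem_sup.1 (hN hx)
    have key : ∃ y ∈ maximalIdeal O, u - T y ∈ K t (k + 1) := by
      refine Submodule.span_induction (p := fun u _ => ∃ y ∈ maximalIdeal O, u - T y ∈ K t (k + 1))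
        ?_ ?_ ?_ ?_ hu
      · rintro _ ⟨b, hb, rfl⟩
        exact ⟨b, hb, by rw [sub_self]; exact Ideal.zero_mem _⟩
      · exact ⟨0, Ideal.zero_mem _, by rw [map_zero, sub_self]; exact Ideal.zero_mem _⟩
      · rintro a b _ _ ⟨y, hy, h1⟩ ⟨z, hz, h2⟩
        refine ⟨y + z, Ideal.add_mem _ hy hz, ?_⟩
        have : a + b - T (y + z) = (a - T y) + (b - T z) := by rw [map_add]; ring
        rw [this]
        exact Ideal.add_mem _ h1 h2
      · rintro a w _ ⟨b, hb, h1⟩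
        obtain ⟨c, hc⟩ := hres a
        obtain ⟨y, hy, hr⟩ := ih _ hc
        refine ⟨algebraMap ℂ O c * b + y * b, Ideal.add_mem _ (Ideal.mul_mem_left _ _ hb)
          (Ideal.mul_mem_left _ _ hb), ?_⟩
        have e : a • w - T (algebraMap ℂ O c * b + y * b)
            = a * (w - T b) + (a - algebraMap ℂ O c - T y) * T b := by
          rw [map_add, map_mul, map_mul, AlgHom.commutes, smul_eq_mul]; ring
        rw [e]
        refine Ideal.add_mem _ (Ideal.mul_mem_left _ _ h1) ?_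
        obtain ⟨p, hp, q, hq, hpq⟩ := Submodule.mem_sup.1 hr
        rw [← hpq, add_mul]
        refine Submodule.add_mem_sup (Ideal.mul_mem_right _ _ hp) ?_
        rw [pow_succ]
        exact Ideal.mul_mem_mul hq (hT b hb)
    obtain ⟨y, hy, h⟩ := key
    refine ⟨y, hy, ?_⟩
    have : u + v - T y = (u - T y) + v := by ring
    rw [this]
    exact Ideal.add_mem _ h (Submodule.mem_sup_left hv)

lemma step_a' (T : O →ₐ[ℂ] O) (hT : ∀ a ∈ maximalIdeal O, T a ∈ maximalIdeal O)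
    (hres : ∀ a, ∃ c : ℂ, a - algebraMap ℂ O c ∈ maximalIdeal O) (t : O)
    (htT : T t ∈ Ideal.span {t})
    (hN : maximalIdeal O ≤ Ideal.span (T '' (maximalIdeal O : Set O)) ⊔ Ideal.span {t}) (k i : ℕ) :
    ∀ x : O, ∃ y : O, x - (T ^ i) y ∈ K t k := by
  induction i with
  | zero =>
    intro x
    exact ⟨x, by simp⟩
  | succ i ih =>
    intro x
    obtain ⟨y, hy⟩ := ih x
    obtain ⟨c, hc⟩ := hres y
    obtain ⟨z, -, hz⟩ := step_a T hT hres t hN k _ hc
    refine ⟨algebraMap ℂ O c + z, ?_⟩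
    have e : x - (T ^ (i + 1)) (algebraMap ℂ O c + z)
        = (x - (T ^ i) y) + (T ^ i) (y - algebraMap ℂ O c - T z) := by
      rw [pow_succ, AlgHom.mul_apply, map_add, AlgHom.commutes, map_sub, map_sub, map_add]
      ring
    rw [e]
    exact Ideal.add_mem _ hy (T_K_pow T hT htT k i hz)

lemma step_b (T : O →ₐ[ℂ] O) (hT : ∀ a ∈ maximalIdeal O, T a ∈ maximalIdeal O)
    (hres : ∀ a, ∃ c : ℂ, a - algebraMap ℂ O c ∈ maximalIdeal O) (t : O)
    (htT : T t ∈ Ideal.span {t})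
    (hN : maximalIdeal O ≤ Ideal.span (T '' (maximalIdeal O : Set O)) ⊔ Ideal.span {t})
    (b : Ideal O) (hb : ∀ a ∈ b, T a ∈ b) (k : ℕ) :
    b ≤ (Ideal.span (T '' (b : Set O)) ⊔ Ideal.span {t}) ⊔ maximalIdeal O ^ k := by
  have hTbK : ∀ a ∈ b ⊔ K t k, T a ∈ b ⊔ K t k := by
    intro a ha
    obtain ⟨x, hx, y, hy, rfl⟩ := Submodule.mem_sup.1 ha
    rw [map_add]
    exact Submodule.add_mem_sup (hb x hx) (T_K T hT htT k hy)
  let B : ℕ → Ideal O := fun i => Ideal.comap ((T ^ i : O →ₐ[ℂ] O) : O →+* O) (b ⊔ K t k)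
  have hmono : Monotone B := by
    apply monotone_nat_of_le_succ
    intro i x hx
    have h1 : (T ^ i) x ∈ b ⊔ K t k := hx
    show (T ^ (i + 1)) x ∈ b ⊔ K t k
    rw [pow_succ', AlgHom.mul_apply]
    exact hTbK _ h1
  obtain ⟨i, hi⟩ := monotone_stabilizes_iff_noetherian.2 (inferInstance : IsNoetherian O O)
    ⟨B, hmono⟩
  have hstab : B i = B (i + 1) := hi (i + 1) (Nat.le_succ i)
  intro x hx
  obtain ⟨w, hw⟩ := step_a' T hT hres t htT hN k (i + 1) x
  have h1 : w ∈ B (i + 1) := by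
    show (T ^ (i + 1)) w ∈ b ⊔ K t k
    have e : (T ^ (i + 1)) w = x - (x - (T ^ (i + 1)) w) := by ring
    rw [e]
    exact Ideal.sub_mem _ (Submodule.mem_sup_left hx) (Submodule.mem_sup_right hw)
  rw [← hstab] at h1
  have h2 : (T ^ i) w ∈ b ⊔ K t k := h1
  obtain ⟨y, hy, r, hr, hyr⟩ := Submodule.mem_sup.1 h2
  have e : x = T y + (T r + (x - (T ^ (i + 1)) w)) := by
    have e1 : (T ^ (i + 1)) w = T y + T r := by
      rw [pow_succ', AlgHom.mul_apply, ← hyr, map_add]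
    rw [e1]; ring
  rw [e, sup_assoc]
  exact Submodule.add_mem_sup (Ideal.subset_span ⟨y, hy, rfl⟩)
    (Ideal.add_mem _ (T_K T hT htT k hr) hw)

end Kr

open Kr in
theorem krull_T {O : Type} [CommRing O] [IsLocalRing O] [IsNoetherianRing O] [Algebra ℂ O]
    (T : O →ₐ[ℂ] O) (hT : ∀ a ∈ maximalIdeal O, T a ∈ maximalIdeal O)
    (hres : ∀ a, ∃ c : ℂ, a - algebraMap ℂ O c ∈ maximalIdeal O) (t : O)
    (htm : t ∈ maximalIdeal O) (htT : T t ∈ Ideal.span {t})
    (hU : maximalIdeal O ≤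
      Ideal.span (T '' (maximalIdeal O : Set O)) ⊔ Ideal.span {t} ⊔ maximalIdeal O ^ 2)
    (b : Ideal O) (hb : ∀ a ∈ b, T a ∈ b) :
    b ≤ Ideal.span (T '' (b : Set O)) ⊔ Ideal.span {t} := by
  have hN : maximalIdeal O ≤ Ideal.span (T '' (maximalIdeal O : Set O)) ⊔ Ideal.span {t} := by
    refine Submodule.le_of_le_smul_of_le_jacobson_bot (I := maximalIdeal O)
      (IsNoetherian.noetherian _) (IsLocalRing.maximalIdeal_le_jacobson _) ?_
    rw [smul_eq_mul, ← sq]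
    exact hU
  intro x hx
  set J : Ideal O := Ideal.span (T '' (b : Set O)) ⊔ Ideal.span {t} with hJ
  have h1 : (Submodule.Quotient.mk x : O ⧸ J) ∈
      (⨅ i : ℕ, maximalIdeal O ^ i • (⊤ : Submodule O (O ⧸ J)) : Submodule O (O ⧸ J)) := by
    rw [Submodule.mem_iInf]
    intro k
    obtain ⟨j, hj, z, hz, hjz⟩ := Submodule.mem_sup.1 (step_b T hT hres t htT hN b hb k hx)
    have e : (Submodule.Quotient.mk x : O ⧸ J) = z • (Submodule.Quotient.mk 1 : O ⧸ J) := by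
      rw [← Submodule.Quotient.mk_smul, Submodule.Quotient.eq, smul_eq_mul, mul_one, ← hjz]
      simpa using hj
    rw [e]
    exact Submodule.smul_mem_smul hz Submodule.mem_top
  rw [Ideal.iInf_pow_smul_eq_bot_of_isLocalRing _ (Ideal.IsPrime.ne_top inferInstance)] at h1
  exact (Submodule.Quotient.mk_eq_zero J).1 ((Submodule.mem_bot O).1 h1)

end Pool.Agent.Helper52.AT
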